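import Pool.Agent.Helper4.HD.Goals

/-!
# Packet HD-EUL (MP_bb32d1_al): the Euler operator
-/

set_option autoImplicit false

namespace Pool.Agent.Helper40.HD

open MvPolynomial Finset Pool.Agent.Helper4.HD

noncomputable section

theorem dd_swap {n : ℕ} (i j : Fin n) (f : P n) : dd j i f = - dd i j f := by
  by_cases h : i = j
  · rw [h, dd_self, neg_zero]
  · apply mul_left_cancel₀ (X_sub_X_ne h)
    have h1 := dd_spec h f
    have h2 := dd_spec (Ne.symm h) f
    rw [Equiv.swap_comm j i] at h2
    linear_combination h1 - h2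

theorem pair {n : ℕ} (i j : Fin n) (f : P n) :
    X i * dd i j f + X j * dd j i f = f - sw (Equiv.swap i j) f := by
  by_cases h : i = j
  · rw [h, dd_self, Equiv.swap_self]
    have : sw (Equiv.refl (Fin n)) f = f := sw_one_apply f
    rw [this]
    ring
  · rw [dd_swap i j f, ← dd_spec h f]
    ring

theorem eul : S_EUL := by
  intro n f
  refine ⟨?_, ?_, ?_⟩
  · have h1 : ∑ i : Fin n, X i * Dk i f =
        eu n f - cc n • ∑ i : Fin n, ∑ j : Fin n, X i * dd i j f := by
      unfold Dk eu
      rw [LinearMap.sum_apply, Finset.smul_sum, ← Finset.sum_sub_distrib]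
      refine Finset.sum_congr rfl fun i _ => ?_
      rw [LinearMap.sub_apply, LinearMap.smul_apply, LinearMap.sum_apply, mul_sub, mul_smul_comm,
        Finset.mul_sum]
      rfl
    have h2 : (2 : ℂ) • ∑ i : Fin n, ∑ j : Fin n, X i * dd i j f =
        ∑ i : Fin n, ∑ j : Fin n, (f - sw (Equiv.swap i j) f) := by
      have h3 : ∑ i : Fin n, ∑ j : Fin n, (X i * dd i j f : P n) =
          ∑ i : Fin n, ∑ j : Fin n, X j * dd j i f := Finset.sum_comm
      rw [two_smul]
      conv_lhs => rw [← Finset.sum_add_distrib]
      calc _ = (∑ i : Fin n, ∑ j : Fin n, (X i * dd i j f : P n)) +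
            ∑ i : Fin n, ∑ j : Fin n, X j * dd j i f := by
              rw [Finset.sum_add_distrib, ← h3]
        _ = _ := by
            rw [← Finset.sum_add_distrib]
            refine Finset.sum_congr rfl fun i _ => ?_
            rw [← Finset.sum_add_distrib]
            exact Finset.sum_congr rfl fun j _ => pair i j f
    rw [h1, smul_sub, smul_comm (2 : ℂ) (cc n), h2]
  · have h1 : ∀ i : Fin n, X i * Tk i f = X i * Dk i f - ((1 : ℂ) / n) • (X i * dtot n f) := by
      intro i
      unfold Tk
      rw [LinearMap.sub_apply, LinearMap.smul_apply, mul_sub, mul_smul_comm]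
    rw [Finset.sum_congr rfl fun i _ => h1 i, Finset.sum_sub_distrib, ← Finset.smul_sum,
      ← Finset.sum_mul]
    congr 3
    unfold pw
    exact Finset.sum_congr rfl fun k _ => (pow_one _).symm
  · intro d hd
    have h1 : eu n f = ∑ i : Fin n, X i * pderiv i f := by
      unfold eu
      rw [LinearMap.sum_apply]
      rfl
    rw [h1, hd.sum_X_mul_pderiv, ← Nat.cast_smul_eq_nsmul ℂ]

end

end Pool.Agent.Helper40.HD
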