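import Pool.Agent.Helper4.HD.Goals

/-!
# Packet HD-GG (MP_bb32d1_al): the polynomials gg and ff
-/

set_option autoImplicit false

namespace Pool.Agent.Helper40.HD.GG

open MvPolynomial Finset Pool.Agent.Helper4.HD

noncomputable section

theorem gg_succ (n m : ℕ) : Pool.Agent.Helper4.HD.gg n (m + 1) =
    C (-(cc n) / ((m : ℂ) + 1)) * ∑ a ∈ range (m + 1),
      pw n (a + 1) * Pool.Agent.Helper4.HD.gg n (m - a) := by
  rw [Pool.Agent.Helper4.HD.gg, Finset.sum_range]

theorem gg_zero (n : ℕ) : Pool.Agent.Helper4.HD.gg n 0 = 1 := by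
  rw [Pool.Agent.Helper4.HD.gg]

theorem sw_pw {n : ℕ} (σ : Equiv.Perm (Fin n)) (a : ℕ) : sw σ (pw n a) = pw n a := by
  unfold pw
  rw [map_sum]
  have h : ∀ k : Fin n, sw σ (X k ^ a) = X (σ k) ^ a := fun k => by rw [map_pow, sw_X]
  rw [Finset.sum_congr rfl fun k _ => h k]
  exact Equiv.sum_comp σ fun k => (X k ^ a : P n)

theorem sw_gg {n : ℕ} (σ : Equiv.Perm (Fin n)) (m : ℕ) :
    sw σ (Pool.Agent.Helper4.HD.gg n m) = Pool.Agent.Helper4.HD.gg n m := by
  induction m using Nat.strong_induction_on with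
  | _ m ih =>
    rcases m with _ | m
    · rw [gg_zero, map_one]
    · rw [gg_succ, map_mul, sw_C, map_sum]
      congr 1
      refine Finset.sum_congr rfl fun a _ => ?_
      rw [map_mul, sw_pw, ih (m - a) (by omega)]

theorem sw_ff {n : ℕ} (σ : Equiv.Perm (Fin n)) (i : Fin n) (m : ℕ) :
    sw σ (ff i m) = ff (σ i) m := by
  unfold ff
  rw [map_sum]
  refine Finset.sum_congr rfl fun a _ => ?_
  rw [map_mul, map_pow, sw_X, sw_gg]

theorem ff_zero {n : ℕ} (i : Fin n) : ff i 0 = 1 := by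
  unfold ff
  rw [zero_add, Finset.sum_range_one, pow_zero, one_mul, Nat.sub_zero, gg_zero]

theorem ff_succ {n : ℕ} (i : Fin n) (m : ℕ) :
    ff i (m + 1) = X i * ff i m + Pool.Agent.Helper4.HD.gg n (m + 1) := by
  unfold ff
  rw [Finset.sum_range_succ', pow_zero, one_mul, Nat.sub_zero, Finset.mul_sum]
  congr 1
  refine Finset.sum_congr rfl fun a _ => ?_
  rw [Nat.add_sub_add_right, pow_succ]
  ring

theorem hom_pw (n a : ℕ) : (pw n a).IsHomogeneous a := by
  unfold pw
  refine IsHomogeneous.sum _ _ _ fun k _ => ?_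
  exact isHomogeneous_X_pow k a

theorem hom_gg (n m : ℕ) : (Pool.Agent.Helper4.HD.gg n m).IsHomogeneous m := by
  induction m using Nat.strong_induction_on with
  | _ m ih =>
    rcases m with _ | m
    · rw [gg_zero]
      exact isHomogeneous_one _ _
    · rw [gg_succ]
      have h : (∑ a ∈ range (m + 1), pw n (a + 1) * Pool.Agent.Helper4.HD.gg n (m - a)).IsHomogeneous
          (m + 1) := by
        refine IsHomogeneous.sum _ _ _ fun a ha => ?_
        have h1 := (hom_pw n (a + 1)).mul (ih (m - a) (by omega))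
        have h2 : a + 1 + (m - a) = m + 1 := by
          have := Finset.mem_range.mp ha
          omega
        rwa [h2] at h1
      exact h.C_mul _

theorem hom_ff {n : ℕ} (i : Fin n) (m : ℕ) : (ff i m).IsHomogeneous m := by
  unfold ff
  refine IsHomogeneous.sum _ _ _ fun a ha => ?_
  have h1 := (isHomogeneous_X_pow i a (R := ℂ)).mul (hom_gg n (m - a))
  have h2 : a + (m - a) = m := by
    have := Finset.mem_range.mp ha
    omega
  rwa [h2] at h1

theorem sum_ff (n m : ℕ) : ∑ i : Fin n, ff i m =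
    ∑ a ∈ range (m + 1), pw n a * Pool.Agent.Helper4.HD.gg n (m - a) := by
  unfold ff pw
  rw [Finset.sum_comm]
  exact Finset.sum_congr rfl fun a _ => (Finset.sum_mul _ _ _).symm

theorem pw_zero (n : ℕ) : pw n 0 = C (n : ℂ) := by
  unfold pw
  simp only [pow_zero, Finset.sum_const, Finset.card_univ, Fintype.card_fin, nsmul_eq_mul, mul_one]
  exact (map_natCast (C : ℂ →+* P n) n).symm

theorem gg5 (n m : ℕ) : cc n • ∑ i : Fin n, ff i m =
    (cc n * n - m) • Pool.Agent.Helper4.HD.gg n m := by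
  rw [sum_ff, Finset.sum_range_succ', pw_zero, Nat.sub_zero]
  rcases m with _ | m
  · rw [Finset.sum_range_zero, zero_add, gg_zero, Nat.cast_zero, sub_zero, mul_one, mul_smul]
    congr 1
    rw [MvPolynomial.smul_eq_C_mul, mul_one]
  · have h1 : ∀ a ∈ range (m + 1), pw n (a + 1) * Pool.Agent.Helper4.HD.gg n (m + 1 - (a + 1)) =
        pw n (a + 1) * Pool.Agent.Helper4.HD.gg n (m - a) := fun a _ => by
      rw [Nat.add_sub_add_right]
    rw [Finset.sum_congr rfl h1]
    have hm : ((m : ℂ) + 1) ≠ 0 := Nat.cast_add_one_ne_zero m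
    have h2 : ((m : ℂ) + 1) • Pool.Agent.Helper4.HD.gg n (m + 1) = -(cc n • ∑ a ∈ range (m + 1),
        pw n (a + 1) * Pool.Agent.Helper4.HD.gg n (m - a)) := by
      rw [gg_succ, ← MvPolynomial.smul_eq_C_mul, smul_smul, mul_div_cancel₀ _ hm, neg_smul]
    rw [smul_add, sub_smul, Nat.cast_add, Nat.cast_one, h2, ← MvPolynomial.smul_eq_C_mul,
      smul_smul]
    abel

theorem gg : S_GG := by
  intro n m σ
  exact ⟨sw_gg σ m, fun i => sw_ff σ i m, fun i => ⟨ff_zero i, ff_succ i m⟩,
    ⟨hom_gg n m, fun i => hom_ff i m⟩, gg5 n m⟩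

end

end Pool.Agent.Helper40.HD.GG
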